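import Mathlib

/-!
# Anisotropic Cheeger constants in the plane

The plane is `ℝ × ℝ` with Lebesgue measure and the usual dot product.
-/

set_option autoImplicit false

open MeasureTheory Set
open scoped ENNReal

namespace Pool.Agent.Helper32.Cheeger

/-- The dot product of the plane. -/
def dot (x y : ℝ × ℝ) : ℝ := x.1 * y.1 + x.2 * y.2

/-- The class `𝒦₂`: non-empty, open, bounded, convex sets of the plane which are symmetric with
respect to the origin. -/
structure IsK2 (K : Set (ℝ × ℝ)) : Prop where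
  nonempty : K.Nonempty
  isOpen : IsOpen K
  bounded : Bornology.IsBounded K
  convex : Convex ℝ K
  symm : ∀ x ∈ K, -x ∈ K

/-- The class `𝒫ₙ`: the members of `𝒦₂` which are polygons with exactly `n` sides, that is, whose
closure has exactly `n` extreme points (vertices). -/
def IsNGon (n : ℕ) (K : Set (ℝ × ℝ)) : Prop :=
  IsK2 K ∧ (extremePoints ℝ (closure K)).encard = n

/-- The polar norm `Φ_K°(x) = sup {x · y : y ∈ K}`. -/
noncomputable def polarNorm (K : Set (ℝ × ℝ)) (x : ℝ × ℝ) : ℝ := sSup (dot x '' K)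

/-- The polar set `K° = {x : Φ_K°(x) < 1}`. -/
def polarSet (K : Set (ℝ × ℝ)) : Set (ℝ × ℝ) := {x | polarNorm K x < 1}

/-- The divergence `∂₁ φ₁ + ∂₂ φ₂` of a vector field on the plane. -/
noncomputable def divergence (φ : ℝ × ℝ → ℝ × ℝ) (x : ℝ × ℝ) : ℝ :=
  (fderiv ℝ φ x (1, 0)).1 + (fderiv ℝ φ x (0, 1)).2

/-- The anisotropic perimeter `P_K(E)`: the supremum of `∫_E div φ` over the compactly supported
`C¹` vector fields `φ` with values in `K`. For a set `E` of finite perimeter this is the integral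
of `Φ_K°(ν_E)` over the reduced boundary with respect to the length measure; it is infinite if `E`
does not have finite perimeter. -/
noncomputable def perimeter (K E : Set (ℝ × ℝ)) : ℝ≥0∞ :=
  ⨆ (φ : ℝ × ℝ → ℝ × ℝ) (_ : ContDiff ℝ 1 φ) (_ : HasCompactSupport φ) (_ : ∀ x, φ x ∈ K),
    ENNReal.ofReal (∫ x in E, divergence φ x)

/-- The anisotropic Cheeger constant `h_K(Ω) = inf {P_K(E) / |E| : E ⊆ Ω, |E| > 0}`. -/
noncomputable def cheeger (K Ω : Set (ℝ × ℝ)) : ℝ≥0∞ :=
  ⨅ (E : Set (ℝ × ℝ)) (_ : MeasurableSet E) (_ : E ⊆ Ω) (_ : 0 < volume E),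
    perimeter K E / volume E

/-- The functional `𝒥_Ω[K] = h_K(Ω) |K°|^(1/2)`. -/
noncomputable def J (Ω K : Set (ℝ × ℝ)) : ℝ≥0∞ :=
  cheeger K Ω * volume (polarSet K) ^ (1 / 2 : ℝ)

/-- The open unit disk. -/
def disk : Set (ℝ × ℝ) := {x | x.1 ^ 2 + x.2 ^ 2 < 1}

/-- The regular `n`-gon circumscribed about the unit disk: the intersection of the `n` half-planes
`{x : x · u < 1}` with `u = (cos (2πk/n), sin (2πk/n))`. -/
noncomputable def regularPolygon (n : ℕ) : Set (ℝ × ℝ) :=
  {x | ∀ k < n, dot x (Real.cos (2 * Real.pi * k / n), Real.sin (2 * Real.pi * k / n)) < 1}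

end Pool.Agent.Helper32.Cheeger
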