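import Pool.Agent.Helper32.Cheeger.Defs

set_option autoImplicit false

open MeasureTheory Set Filter Topology
open scoped ENNReal

namespace Pool.Agent.Helper32.Cheeger

lemma isOpen_disk : IsOpen disk := by
  unfold disk
  exact isOpen_lt (by fun_prop) continuous_const

lemma measurableSet_disk : MeasurableSet disk := isOpen_disk.measurableSet

/-- area of the disc of radius `r` -/
lemma volume_disc {r : ℝ} (hr : 0 ≤ r) :
    volume {x : ℝ × ℝ | x.1 ^ 2 + x.2 ^ 2 < r ^ 2} = ENNReal.ofReal (Real.pi * r ^ 2) := by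
  have h := Complex.volume_preserving_equiv_real_prod
  have h1 : volume (Metric.ball (0 : ℂ) r) = NNReal.pi * ENNReal.ofReal r ^ 2 := by
    rw [Complex.volume_ball]; ring
  have h2 : Complex.measurableEquivRealProd ⁻¹' {x : ℝ × ℝ | x.1 ^ 2 + x.2 ^ 2 < r ^ 2} =
      Metric.ball (0 : ℂ) r := by
    ext z
    simp only [mem_preimage, mem_setOf_eq, Complex.measurableEquivRealProd_apply, Metric.mem_ball,
      dist_zero_right]
    have h3 : z.re ^ 2 + z.im ^ 2 = ‖z‖ ^ 2 := by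
      rw [Complex.sq_norm, Complex.normSq_apply]; ring
    rw [h3]
    constructor
    · intro h4
      exact lt_of_pow_lt_pow_left₀ 2 hr h4
    · intro h4
      exact pow_lt_pow_left₀ h4 (norm_nonneg _) two_ne_zero
  have hm : MeasurableSet {x : ℝ × ℝ | x.1 ^ 2 + x.2 ^ 2 < r ^ 2} := by
    apply IsOpen.measurableSet
    exact isOpen_lt (by fun_prop) continuous_const
  rw [← h.measure_preimage hm.nullMeasurableSet, h2, h1, ENNReal.ofReal_mul Real.pi_pos.le,
    ENNReal.ofReal_pow hr]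
  congr 1
  rw [← NNReal.coe_real_pi, ENNReal.ofReal_coe_nnreal]

lemma volume_disk : volume disk = ENNReal.ofReal Real.pi := by
  have := volume_disc (r := 1) zero_le_one
  simpa [disk] using this

/-- the truncated radial field -/
lemma exists_field {t : ℝ} (ht0 : 0 < t) (ht1 : t < 1) :
    ∃ φ : ℝ × ℝ → ℝ × ℝ, ContDiff ℝ 1 φ ∧ HasCompactSupport φ ∧ (∀ x, φ x ∈ disk) ∧
      ∀ x ∈ disk, φ x = t • x := by
  have hη : 0 < 1 - t ^ 2 := by nlinarith
  let ψ : ContDiffBump (0 : ℝ) := ⟨1, 1 + (1 - t ^ 2), by norm_num, by linarith⟩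
  have hin : ∀ s : ℝ, |s| ≤ 1 → ψ s = 1 := by
    intro s hs
    apply ψ.one_of_mem_closedBall
    rw [mem_closedBall_zero_iff, Real.norm_eq_abs]
    exact hs
  have hout : ∀ s : ℝ, 1 + (1 - t ^ 2) ≤ |s| → ψ s = 0 := by
    intro s hs
    apply ψ.zero_of_le_dist
    rw [dist_zero_right, Real.norm_eq_abs]
    exact hs
  refine ⟨fun x => (t * ψ (x.1 ^ 2 + x.2 ^ 2)) • x, ?_, ?_, ?_, ?_⟩
  · have h1 : ContDiff ℝ 1 (fun x : ℝ × ℝ => x.1 ^ 2 + x.2 ^ 2) := by fun_prop
    have h2 : ContDiff ℝ 1 (fun x : ℝ × ℝ => ψ (x.1 ^ 2 + x.2 ^ 2)) := ψ.contDiff.comp h1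
    exact (contDiff_const.mul h2).smul contDiff_id
  · refine HasCompactSupport.intro (isCompact_closedBall (0 : ℝ × ℝ) 2) fun x hx => ?_
    have h1 : 1 + (1 - t ^ 2) ≤ |x.1 ^ 2 + x.2 ^ 2| := by
      rw [abs_of_nonneg (by positivity)]
      rw [mem_closedBall_zero_iff, not_le, Prod.norm_def, lt_max_iff] at hx
      rcases hx with hx | hx
      · rw [Real.norm_eq_abs] at hx
        have : 4 < x.1 ^ 2 := by
          rw [← sq_abs]; nlinarith
        nlinarith [sq_nonneg x.2]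
      · rw [Real.norm_eq_abs] at hx
        have : 4 < x.2 ^ 2 := by
          rw [← sq_abs]; nlinarith
        nlinarith [sq_nonneg x.1]
    show (t * ψ (x.1 ^ 2 + x.2 ^ 2)) • x = 0
    rw [hout _ h1, mul_zero, zero_smul]
  · intro x
    show ((t * ψ (x.1 ^ 2 + x.2 ^ 2)) • x).1 ^ 2 + ((t * ψ (x.1 ^ 2 + x.2 ^ 2)) • x).2 ^ 2 < 1
    simp only [Prod.smul_fst, Prod.smul_snd, smul_eq_mul]
    set s := x.1 ^ 2 + x.2 ^ 2 with hs
    have e : (t * ψ s * x.1) ^ 2 + (t * ψ s * x.2) ^ 2 = t ^ 2 * (ψ s) ^ 2 * s := by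
      rw [hs]; ring
    rw [e]
    have hs0 : 0 ≤ s := by positivity
    have hψ0 : 0 ≤ ψ s := ψ.nonneg
    have hψ1 : ψ s ≤ 1 := ψ.le_one
    by_cases h : 1 + (1 - t ^ 2) ≤ s
    · rw [hout s (by rwa [abs_of_nonneg hs0])]
      norm_num
    · push Not at h
      have h1 : (ψ s) ^ 2 ≤ 1 := by nlinarith
      have h2 : (ψ s) ^ 2 * s ≤ s := by nlinarith
      have h3 : t ^ 2 * ((ψ s) ^ 2 * s) ≤ t ^ 2 * (1 + (1 - t ^ 2)) :=
        mul_le_mul_of_nonneg_left (h2.trans h.le) (by positivity)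
      have h4 : t ^ 2 * (1 + (1 - t ^ 2)) = 1 - (1 - t ^ 2) ^ 2 := by ring
      have h5 : 0 < (1 - t ^ 2) ^ 2 := by positivity
      nlinarith
  · intro x hx
    have h1 : ψ (x.1 ^ 2 + x.2 ^ 2) = 1 := by
      apply hin
      rw [abs_of_nonneg (by positivity)]
      exact le_of_lt hx
    show (t * ψ (x.1 ^ 2 + x.2 ^ 2)) • x = t • x
    rw [h1, mul_one]

lemma divergence_of_eq {φ : ℝ × ℝ → ℝ × ℝ} {t : ℝ} (h : ∀ x ∈ disk, φ x = t • x) {x : ℝ × ℝ}
    (hx : x ∈ disk) : divergence φ x = 2 * t := by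
  have h1 : φ =ᶠ[𝓝 x] fun y => t • y := by
    filter_upwards [isOpen_disk.mem_nhds hx] with y hy using h y hy
  unfold divergence
  rw [h1.fderiv_eq]
  have h2 : HasFDerivAt (fun y : ℝ × ℝ => t • y) (t • ContinuousLinearMap.id ℝ (ℝ × ℝ)) x :=
    (hasFDerivAt_id x).const_smul t
  rw [h2.fderiv]
  simp
  ring

lemma perimeter_ge {K : Set (ℝ × ℝ)} (hK : disk ⊆ K) {E : Set (ℝ × ℝ)} (hE : MeasurableSet E)
    (hEd : E ⊆ disk) : 2 * volume E ≤ perimeter K E := by
  have hfin : volume E ≠ ∞ := by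
    apply ne_top_of_le_ne_top _ (measure_mono hEd)
    rw [volume_disk]
    exact ENNReal.ofReal_ne_top
  have key : ∀ t : ℝ, 0 < t → t < 1 → ENNReal.ofReal (2 * t * (volume E).toReal) ≤
      perimeter K E := by
    intro t ht0 ht1
    obtain ⟨φ, h1, h2, h3, h4⟩ := exists_field ht0 ht1
    have h5 : ∫ x in E, divergence φ x = 2 * t * (volume E).toReal := by
      rw [setIntegral_congr_fun hE (g := fun _ => 2 * t)
        (fun x hx => divergence_of_eq h4 (hEd hx))]
      rw [setIntegral_const, smul_eq_mul, Measure.real]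
      ring
    rw [← h5]
    unfold perimeter
    exact le_iSup_of_le φ (le_iSup_of_le h1 (le_iSup_of_le h2
      (le_iSup_of_le (fun x => hK (h3 x)) le_rfl)))
  have hlim : Tendsto (fun t : ℝ => ENNReal.ofReal (2 * t * (volume E).toReal)) (𝓝[<] 1)
      (𝓝 (ENNReal.ofReal (2 * 1 * (volume E).toReal))) := by
    apply ENNReal.tendsto_ofReal
    apply Tendsto.mono_left _ nhdsWithin_le_nhds
    exact ((continuous_const.mul continuous_id).mul continuous_const).tendsto 1
  have h6 : ENNReal.ofReal (2 * 1 * (volume E).toReal) ≤ perimeter K E := by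
    refine le_of_tendsto hlim ?_
    filter_upwards [self_mem_nhdsWithin, mem_nhdsWithin_of_mem_nhds (lt_mem_nhds one_pos)]
      with t ht1 ht0
    exact key t ht0 ht1
  rw [mul_one, ENNReal.ofReal_mul two_pos.le, ENNReal.ofReal_toReal hfin] at h6
  simpa using h6

lemma cheeger_ge {K : Set (ℝ × ℝ)} (hK : disk ⊆ K) : 2 ≤ cheeger K disk := by
  unfold cheeger
  refine le_iInf fun E => le_iInf fun hE => le_iInf fun hEd => le_iInf fun hpos => ?_
  have hfin : volume E ≠ ∞ := by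
    apply ne_top_of_le_ne_top _ (measure_mono hEd)
    rw [volume_disk]
    exact ENNReal.ofReal_ne_top
  rw [ENNReal.le_div_iff_mul_le (Or.inl hpos.ne') (Or.inl hfin)]
  exact perimeter_ge hK hE hEd

lemma disk_subset_regular (n : ℕ) : disk ⊆ regularPolygon n := by
  intro x hx k _
  unfold dot
  set θ := 2 * Real.pi * k / n
  have h1 : x.1 ^ 2 + x.2 ^ 2 < 1 := hx
  have h2 := Real.sin_sq_add_cos_sq θ
  show x.1 * Real.cos θ + x.2 * Real.sin θ < 1
  nlinarith [sq_nonneg (x.1 - Real.cos θ), sq_nonneg (x.2 - Real.sin θ)]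

/-- a point of the regular polygon is in the disc of radius `1 / cos (π / n)` -/
lemma regular_bound {n : ℕ} (hn : 3 ≤ n) {y : ℝ × ℝ} (hy : y ∈ regularPolygon n) :
    √(y.1 ^ 2 + y.2 ^ 2) * Real.cos (Real.pi / n) ≤ 1 := by
  have hn0 : (0 : ℝ) < n := by positivity
  set z : ℂ := ⟨y.1, y.2⟩ with hz
  set R := ‖z‖ with hR
  set θ := Complex.arg z with hθ
  have hR1 : √(y.1 ^ 2 + y.2 ^ 2) = R := by
    rw [hR, Complex.norm_eq_sqrt_sq_add_sq]
  have hx1 : y.1 = R * Real.cos θ := by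
    have := Complex.norm_mul_cos_arg z
    rw [← hR, ← hθ] at this
    exact this.symm
  have hx2 : y.2 = R * Real.sin θ := by
    have := Complex.norm_mul_sin_arg z
    rw [← hR, ← hθ] at this
    exact this.symm
  set k0 : ℤ := round (θ * n / (2 * Real.pi)) with hk0
  have hk1 : |θ * n / (2 * Real.pi) - k0| ≤ 1 / 2 := abs_sub_round _
  have hpi := Real.pi_pos
  have hk2 : |θ - 2 * Real.pi * k0 / n| ≤ Real.pi / n := by
    have e : θ - 2 * Real.pi * k0 / n = (θ * n / (2 * Real.pi) - k0) * (2 * Real.pi / n) := by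
      field_simp
    rw [e, abs_mul, abs_of_pos (by positivity : 0 < 2 * Real.pi / n)]
    calc |θ * n / (2 * Real.pi) - k0| * (2 * Real.pi / n) ≤ 1 / 2 * (2 * Real.pi / n) :=
          mul_le_mul_of_nonneg_right hk1 (by positivity)
      _ = Real.pi / n := by ring
  set k : ℕ := (k0 % n).toNat with hk
  have hnz : (n : ℤ) ≠ 0 := by positivity
  have hkk : (k : ℤ) = k0 % n := by
    rw [hk, Int.toNat_of_nonneg (Int.emod_nonneg _ hnz)]
  have hkn : k < n := by
    have := Int.emod_lt_of_pos k0 (by positivity : (0 : ℤ) < n)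
    omega
  have hkr : (k : ℝ) = k0 - n * (k0 / (n : ℤ) : ℤ) := by
    have h1 : (k : ℤ) = k0 - n * (k0 / n) := by
      rw [hkk, Int.emod_def]
    have h2 : ((k : ℤ) : ℝ) = ((k0 - n * (k0 / n) : ℤ) : ℝ) := by rw [h1]
    push_cast at h2
    exact h2
  have hang : 2 * Real.pi * k / n = 2 * Real.pi * k0 / n - (k0 / (n : ℤ) : ℤ) * (2 * Real.pi) := by
    rw [hkr]
    field_simp
  have hlt := hy k hkn
  unfold dot at hlt
  simp only at hlt
  rw [hang, Real.cos_sub_int_mul_two_pi, Real.sin_sub_int_mul_two_pi, hx1, hx2] at hlt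
  have h3 : R * Real.cos θ * Real.cos (2 * Real.pi * k0 / n) +
      R * Real.sin θ * Real.sin (2 * Real.pi * k0 / n) =
      R * Real.cos (θ - 2 * Real.pi * k0 / n) := by
    rw [Real.cos_sub]; ring
  rw [h3] at hlt
  have h4 : Real.cos (Real.pi / n) ≤ Real.cos (θ - 2 * Real.pi * k0 / n) := by
    rw [← Real.cos_abs (θ - 2 * Real.pi * k0 / n)]
    apply Real.cos_le_cos_of_nonneg_of_le_pi (abs_nonneg _) _ hk2
    rw [div_le_iff₀ hn0]
    have : (3 : ℝ) ≤ n := by exact_mod_cast hn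
    nlinarith
  rw [hR1]
  have h5 : 0 ≤ R := norm_nonneg _
  nlinarith

lemma volume_polar_regular {n : ℕ} (hn : 3 ≤ n) :
    ENNReal.ofReal (Real.pi * Real.cos (Real.pi / n) ^ 2) ≤
      volume (polarSet (regularPolygon n)) := by
  have hn0 : (0 : ℝ) < n := by positivity
  have hc : 0 < Real.cos (Real.pi / n) := by
    apply Real.cos_pos_of_mem_Ioo
    have h3 : (3 : ℝ) ≤ n := by exact_mod_cast hn
    have hpi := Real.pi_pos
    constructor
    · have : 0 < Real.pi / n := by positivity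
      linarith
    · rw [div_lt_iff₀ hn0]
      nlinarith
  rw [← volume_disc hc.le]
  apply measure_mono
  intro x hx
  set c := Real.cos (Real.pi / n) with hcdef
  have hx1 : √(x.1 ^ 2 + x.2 ^ 2) < c := by
    rw [Real.sqrt_lt' hc]; exact hx
  have h1 : polarNorm (regularPolygon n) x ≤ √(x.1 ^ 2 + x.2 ^ 2) / c := by
    apply csSup_le
    · refine ⟨dot x 0, mem_image_of_mem _ ?_⟩
      apply disk_subset_regular
      simp [disk]
    · rintro _ ⟨y, hy, rfl⟩
      have h2 := regular_bound hn hy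
      have h3 : dot x y ≤ √(x.1 ^ 2 + x.2 ^ 2) * √(y.1 ^ 2 + y.2 ^ 2) := by
        rw [← Real.sqrt_mul (by positivity)]
        apply Real.le_sqrt_of_sq_le
        unfold dot
        nlinarith [sq_nonneg (x.1 * y.2 - x.2 * y.1)]
      rw [le_div_iff₀ hc]
      calc dot x y * c ≤ √(x.1 ^ 2 + x.2 ^ 2) * √(y.1 ^ 2 + y.2 ^ 2) * c :=
            mul_le_mul_of_nonneg_right h3 hc.le
        _ = √(x.1 ^ 2 + x.2 ^ 2) * (√(y.1 ^ 2 + y.2 ^ 2) * c) := by ring
        _ ≤ √(x.1 ^ 2 + x.2 ^ 2) * 1 := mul_le_mul_of_nonneg_left h2 (Real.sqrt_nonneg _)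
        _ = √(x.1 ^ 2 + x.2 ^ 2) := mul_one _
  show polarNorm (regularPolygon n) x < 1
  refine h1.trans_lt ?_
  rw [div_lt_one hc]
  exact hx1

lemma J_regular_ge {n : ℕ} (hn : 3 ≤ n) :
    2 * ENNReal.ofReal (Real.pi * Real.cos (Real.pi / n) ^ 2) ^ (1 / 2 : ℝ) ≤
      J disk (regularPolygon n) := by
  unfold J
  exact mul_le_mul' (cheeger_ge (disk_subset_regular n))
    (ENNReal.rpow_le_rpow (volume_polar_regular hn) (by norm_num))

end Pool.Agent.Helper32.Cheeger
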