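import Pool.Agent.Helper32.Cheeger.Upper

set_option autoImplicit false

open MeasureTheory Set Filter Topology
open scoped ENNReal

namespace Pool.Agent.Helper32.Cheeger

lemma exists_pe : ∃ p : ℕ, Even p ∧ p ≠ 0 ∧ (2 : ℝ) ≤ (1001 / 1000) ^ p := by
  refine ⟨1000, by decide, by norm_num, ?_⟩
  have h := one_add_mul_le_pow (a := (1 / 1000 : ℝ)) (by norm_num) 1000
  have e1 : (1 : ℝ) + ((1000 : ℕ) : ℝ) * (1 / 1000) = 2 := by norm_num
  have e2 : (1 : ℝ) + 1 / 1000 = 1001 / 1000 := by norm_num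
  rw [e1, e2] at h
  exact h

/-- a large even exponent -/
noncomputable def pe : ℕ := exists_pe.choose

lemma pe_even : Even pe := exists_pe.choose_spec.1
lemma pe_ne : pe ≠ 0 := exists_pe.choose_spec.2.1
lemma pe_pow : (2 : ℝ) ≤ (1001 / 1000) ^ pe := exists_pe.choose_spec.2.2

/-- the strictly convex function whose level set carries the vertices -/
noncomputable def F (x : ℝ × ℝ) : ℝ := x.1 ^ pe + x.2 ^ pe

lemma F_strict {x y : ℝ × ℝ} (hxy : x ≠ y) {a b : ℝ} (ha : 0 < a) (hb : 0 < b) (hab : a + b = 1) :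
    F (a • x + b • y) < a * F x + b * F y := by
  have he := pe_even
  have hs := he.strictConvexOn_pow pe_ne
  have hc := he.convexOn_pow (𝕜 := ℝ)
  unfold F
  simp only [Prod.fst_add, Prod.smul_fst, Prod.snd_add, Prod.smul_snd]
  by_cases h1 : x.1 = y.1
  · have h2 : x.2 ≠ y.2 := fun h2 => hxy (Prod.ext h1 h2)
    have e1 := hc.2 (mem_univ x.1) (mem_univ y.1) ha.le hb.le hab
    have e2 := hs.2 (mem_univ x.2) (mem_univ y.2) h2 ha hb hab
    simp only [smul_eq_mul] at e1 e2 ⊢
    linarith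
  · have e1 := hs.2 (mem_univ x.1) (mem_univ y.1) h1 ha hb hab
    have e2 := hc.2 (mem_univ x.2) (mem_univ y.2) ha.le hb.le hab
    simp only [smul_eq_mul] at e1 e2 ⊢
    linarith

lemma exists_w (j : ℕ) : ∃ w : ℝ × ℝ, w.1 = 1 / (j + 2) ∧ 1 < w.2 ∧ F w = 2 := by
  have hx1 : (1 : ℝ) / (j + 2) < 1 := by
    rw [div_lt_one (by positivity)]
    have : (0 : ℝ) ≤ j := Nat.cast_nonneg j
    linarith
  have hx0 : (0 : ℝ) < 1 / (j + 2) := by positivity
  set x : ℝ := 1 / (j + 2) with hx
  have hp : x ^ pe < 1 := pow_lt_one₀ hx0.le hx1 pe_ne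
  have hpe : (0 : ℝ) < pe := by
    have := Nat.pos_of_ne_zero pe_ne
    exact_mod_cast this
  refine ⟨(x, (2 - x ^ pe) ^ ((pe : ℝ)⁻¹)), rfl, ?_, ?_⟩
  · show 1 < (2 - x ^ pe) ^ ((pe : ℝ)⁻¹)
    apply Real.one_lt_rpow (by linarith) (by positivity)
  · unfold F
    show x ^ pe + ((2 - x ^ pe) ^ ((pe : ℝ)⁻¹)) ^ pe = 2
    have h1 : ((2 - x ^ pe) ^ ((pe : ℝ)⁻¹)) ^ pe = 2 - x ^ pe :=
      Real.rpow_inv_natCast_pow (x := 2 - x ^ pe) (n := pe) (by linarith) pe_ne
    rw [h1]
    ring

/-- points of the level set -/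
noncomputable def w (j : ℕ) : ℝ × ℝ := (exists_w j).choose

lemma w_fst (j : ℕ) : (w j).1 = 1 / (j + 2) := (exists_w j).choose_spec.1
lemma w_snd (j : ℕ) : 1 < (w j).2 := (exists_w j).choose_spec.2.1
lemma F_w (j : ℕ) : F (w j) = 2 := (exists_w j).choose_spec.2.2

lemma w_inj : Function.Injective w := by
  intro i j h
  have h1 := w_fst i
  rw [h, w_fst j] at h1
  have h2 : ((j : ℝ) + 2) = i + 2 := by
    have := congrArg (fun t => t⁻¹) h1
    simpa using this
  have h3 : (j : ℝ) = i := by linarith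
  exact_mod_cast h3.symm

lemma F_neg (x : ℝ × ℝ) : F (-x) = F x := by
  unfold F
  have he := pe_even
  simp only [Prod.fst_neg, Prod.snd_neg, he.neg_pow]

open Classical in
/-- the corners of the square -/
noncomputable def corners : Finset (ℝ × ℝ) := {(1, 1), (1, -1), (-1, 1), (-1, -1)}

open Classical in
/-- the vertices -/
noncomputable def V (m : ℕ) : Finset (ℝ × ℝ) :=
  corners ∪ ((Finset.range m).image w ∪ (Finset.range m).image (fun j => -w j))

lemma corners_snd {x : ℝ × ℝ} (hx : x ∈ corners) : |x.1| = 1 ∧ |x.2| = 1 := by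
  simp only [corners, Finset.mem_insert, Finset.mem_singleton] at hx
  rcases hx with rfl | rfl | rfl | rfl <;> norm_num

lemma corners_neg {x : ℝ × ℝ} (hx : x ∈ corners) : -x ∈ corners := by
  simp only [corners, Finset.mem_insert, Finset.mem_singleton] at hx ⊢
  rcases hx with rfl | rfl | rfl | rfl <;> norm_num

lemma card_corners : corners.card = 4 := by
  unfold corners
  rw [Finset.card_insert_of_notMem, Finset.card_insert_of_notMem, Finset.card_insert_of_notMem,
    Finset.card_singleton] <;> norm_num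

lemma card_V (m : ℕ) : (V m).card = 4 + 2 * m := by
  classical
  unfold V
  rw [Finset.card_union_of_disjoint, Finset.card_union_of_disjoint, card_corners,
    Finset.card_image_of_injective _ w_inj, Finset.card_image_of_injective, Finset.card_range]
  · ring
  · intro i j h
    exact w_inj (neg_injective h)
  · rw [Finset.disjoint_left]
    intro x hx hx'
    rw [Finset.mem_image] at hx hx'
    obtain ⟨i, -, rfl⟩ := hx
    obtain ⟨j, -, h⟩ := hx'
    have h1 := w_snd i
    have h2 := w_snd j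
    rw [← h, Prod.snd_neg] at h1
    linarith
  · rw [Finset.disjoint_left]
    intro x hx hx'
    have h0 := (corners_snd hx).2
    rw [Finset.mem_union, Finset.mem_image, Finset.mem_image] at hx'
    rcases hx' with ⟨j, -, rfl⟩ | ⟨j, -, rfl⟩
    · have := w_snd j
      rw [abs_of_pos (by linarith)] at h0
      linarith
    · have := w_snd j
      rw [Prod.snd_neg, abs_neg, abs_of_pos (by linarith)] at h0
      linarith

lemma V_neg {m : ℕ} {x : ℝ × ℝ} (hx : x ∈ V m) : -x ∈ V m := by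
  classical
  unfold V at hx ⊢
  simp only [Finset.mem_union, Finset.mem_image] at hx ⊢
  rcases hx with h | ⟨j, hj, rfl⟩ | ⟨j, hj, rfl⟩
  · exact Or.inl (corners_neg h)
  · exact Or.inr (Or.inr ⟨j, hj, rfl⟩)
  · exact Or.inr (Or.inl ⟨j, hj, (neg_neg _).symm⟩)

lemma F_V {m : ℕ} {x : ℝ × ℝ} (hx : x ∈ V m) : F x = 2 := by
  classical
  unfold V at hx
  simp only [Finset.mem_union, Finset.mem_image] at hx
  rcases hx with h | ⟨j, -, rfl⟩ | ⟨j, -, rfl⟩
  · obtain ⟨h1, h2⟩ := corners_snd h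
    have he := pe_even
    unfold F
    rw [← he.pow_abs x.1, ← he.pow_abs x.2, h1, h2]
    norm_num
  · exact F_w j
  · rw [F_neg]; exact F_w j

lemma F_hull {m : ℕ} {x : ℝ × ℝ} (hx : x ∈ convexHull ℝ (V m : Set (ℝ × ℝ))) : F x ≤ 2 := by
  have hconv : Convex ℝ {x : ℝ × ℝ | F x ≤ 2} := by
    intro x hx y hy a b ha hb hab
    have hx' : F x ≤ 2 := hx
    have hy' : F y ≤ 2 := hy
    show F (a • x + b • y) ≤ 2
    rcases ha.eq_or_lt with h | ha'
    · subst h
      have : b = 1 := by linarith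
      subst this
      simpa using hy'
    rcases hb.eq_or_lt with h | hb'
    · subst h
      have : a = 1 := by linarith
      subst this
      simpa using hx'
    by_cases hxy : x = y
    · subst hxy
      rw [← add_smul, hab, one_smul]
      exact hx'
    · have := F_strict hxy ha' hb' hab
      nlinarith
  exact convexHull_min (fun y hy => (F_V hy).le) hconv hx

/-- the closed polygon -/
def Q (m : ℕ) : Set (ℝ × ℝ) := convexHull ℝ (V m : Set (ℝ × ℝ))

/-- the polygon -/
def P (m : ℕ) : Set (ℝ × ℝ) := interior (Q m)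

lemma extreme_Q (m : ℕ) : extremePoints ℝ (Q m) = V m := by
  apply Subset.antisymm extremePoints_convexHull_subset
  intro v hv
  have hvF := F_V (Finset.mem_coe.1 hv)
  rw [mem_extremePoints_iff_left]
  refine ⟨subset_convexHull ℝ _ hv, ?_⟩
  intro x hx y hy hvxy
  by_contra hne
  obtain ⟨a, b, ha, hb, hab, rfl⟩ := hvxy
  have hxy : x ≠ y := by
    rintro rfl
    apply hne
    rw [← add_smul, hab, one_smul]
  have h1 := F_strict hxy ha hb hab
  have h2 := F_hull hx
  have h3 := F_hull hy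
  rw [hvF] at h1
  nlinarith

lemma box_subset_Q (m : ℕ) {x : ℝ × ℝ} (h1 : |x.1| ≤ 1) (h2 : |x.2| ≤ 1) : x ∈ Q m := by
  have h3 : ({-1, 1} : Set ℝ) ×ˢ ({-1, 1} : Set ℝ) ⊆ (V m : Set (ℝ × ℝ)) := by
    rintro ⟨a, b⟩ ⟨ha, hb⟩
    simp only [mem_insert_iff, mem_singleton_iff] at ha hb
    have : (a, b) ∈ corners := by
      simp only [corners, Finset.mem_insert, Finset.mem_singleton, Prod.mk.injEq]
      rcases ha with rfl | rfl <;> rcases hb with rfl | rfl <;> simp
    simp only [V, Finset.coe_union]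
    exact Or.inl this
  have h4 := convexHull_mono (𝕜 := ℝ) h3
  rw [convexHull_prod] at h4
  apply h4
  have h5 : ∀ t : ℝ, |t| ≤ 1 → t ∈ convexHull ℝ ({-1, 1} : Set ℝ) := by
    intro t ht
    rw [convexHull_pair, segment_eq_Icc (by norm_num)]
    exact abs_le.1 ht
  exact ⟨h5 _ h1, h5 _ h2⟩

lemma box_subset_P (m : ℕ) {x : ℝ × ℝ} (h1 : |x.1| < 1) (h2 : |x.2| < 1) : x ∈ P m := by
  have hopen : IsOpen {x : ℝ × ℝ | |x.1| < 1 ∧ |x.2| < 1} := by
    have a1 : IsOpen {x : ℝ × ℝ | |x.1| < 1} := isOpen_lt (by fun_prop) continuous_const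
    have a2 : IsOpen {x : ℝ × ℝ | |x.2| < 1} := isOpen_lt (by fun_prop) continuous_const
    exact a1.inter a2
  exact interior_maximal (fun y hy => box_subset_Q m hy.1.le hy.2.le) hopen ⟨h1, h2⟩

lemma Q_bound {m : ℕ} {x : ℝ × ℝ} (hx : x ∈ Q m) : |x.1| ≤ 1001 / 1000 ∧ |x.2| ≤ 1001 / 1000 := by
  have hF := F_hull hx
  have he := pe_even
  have hb := pe_pow
  unfold F at hF
  have h1 := he.pow_nonneg x.1
  have h2 := he.pow_nonneg x.2
  constructor
  · apply le_of_pow_le_pow_left₀ (n := pe) pe_ne (by norm_num)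
    rw [he.pow_abs]
    linarith
  · apply le_of_pow_le_pow_left₀ (n := pe) pe_ne (by norm_num)
    rw [he.pow_abs]
    linarith

lemma bounded_P (m : ℕ) : Bornology.IsBounded (P m) := by
  refine (Metric.isBounded_closedBall (x := (0 : ℝ × ℝ)) (r := 1001 / 1000)).subset ?_
  intro x hx
  have := Q_bound (interior_subset hx)
  rw [mem_closedBall_zero_iff, Prod.norm_def, max_le_iff]
  exact this

lemma Q_neg {m : ℕ} {x : ℝ × ℝ} (hx : x ∈ Q m) : -x ∈ Q m := by
  have h1 : (V m : Set (ℝ × ℝ)) ⊆ {x | -x ∈ Q m} := fun y hy =>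
    subset_convexHull ℝ _ (V_neg hy)
  have h2 : Convex ℝ {x : ℝ × ℝ | -x ∈ Q m} := by
    intro y hy z hz a b ha hb hab
    show -(a • y + b • z) ∈ Q m
    have e : -(a • y + b • z) = a • (-y) + b • (-z) := by module
    rw [e]
    exact convex_convexHull ℝ _ hy hz ha hb hab
  exact convexHull_min h1 h2 hx

lemma P_neg {m : ℕ} {x : ℝ × ℝ} (hx : x ∈ P m) : -x ∈ P m := by
  have hopen : IsOpen {y : ℝ × ℝ | -y ∈ P m} := isOpen_interior.preimage continuous_neg
  have hsub : {y : ℝ × ℝ | -y ∈ P m} ⊆ Q m := by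
    intro y hy
    have := Q_neg (interior_subset hy)
    rwa [neg_neg] at this
  have : -x ∈ {y : ℝ × ℝ | -y ∈ P m} := by
    show -(-x) ∈ P m
    rwa [neg_neg]
  exact interior_maximal hsub hopen this

lemma closure_P (m : ℕ) : closure (P m) = Q m := by
  have h1 : (interior (Q m)).Nonempty := ⟨0, box_subset_P m (by simp) (by simp)⟩
  have h2 : IsClosed (Q m) := (V m).finite_toSet.isClosed_convexHull ℝ
  have h3 : Convex ℝ (Q m) := convex_convexHull ℝ _
  rw [P, h3.closure_interior_eq_closure_of_nonempty_interior h1]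
  exact h2.closure_eq

lemma isNGon_P (m : ℕ) : IsNGon (4 + 2 * m) (P m) := by
  refine ⟨⟨⟨0, box_subset_P m (by simp) (by simp)⟩, isOpen_interior, bounded_P m,
    (convex_convexHull ℝ _).interior, fun x hx => P_neg hx⟩, ?_⟩
  rw [closure_P, extreme_Q, Set.encard_coe_eq_coe_finsetCard, card_V]

lemma J_P_lt (m : ℕ) : J disk (P m) < ENNReal.ofReal (3508 / 1000) := by
  set E := trunc (12 / 13) with hE
  have hEm : MeasurableSet E := (isOpen_trunc _).measurableSet
  have hvol : ENNReal.ofReal (29806 / 10000) ≤ volume E := by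
    have h1 := volume_trunc (c := 12 / 13) (by norm_num)
    have h2 : √(2 * (1 - 12 / 13 : ℝ)) ≤ 39224 / 100000 := by
      rw [Real.sqrt_le_iff]
      constructor <;> norm_num
    have h3 : √(2 * (1 - 12 / 13 : ℝ)) ^ 3 ≤ (39224 / 100000) ^ 3 :=
      pow_le_pow_left₀ (Real.sqrt_nonneg _) h2 3
    have h4 : (4 : ℝ≥0∞) * ENNReal.ofReal (2 / 3 * √(2 * (1 - 12 / 13 : ℝ)) ^ 3) ≤
        ENNReal.ofReal (4 * (2 / 3 * (39224 / 100000) ^ 3)) := by
      rw [ENNReal.ofReal_mul (by norm_num : (0 : ℝ) ≤ 4)]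
      have : ENNReal.ofReal 4 = 4 := by norm_num
      rw [this]
      gcongr
    have h5 : ENNReal.ofReal (3141592 / 1000000) ≤ volume E +
        ENNReal.ofReal (4 * (2 / 3 * (39224 / 100000) ^ 3)) := by
      refine le_trans (ENNReal.ofReal_le_ofReal ?_) (h1.trans (by gcongr))
      have := Real.pi_gt_d6
      norm_num at this ⊢
      linarith
    have h6 : ENNReal.ofReal (3141592 / 1000000) =
        ENNReal.ofReal (3141592 / 1000000 - 4 * (2 / 3 * (39224 / 100000) ^ 3)) +
        ENNReal.ofReal (4 * (2 / 3 * (39224 / 100000) ^ 3)) := by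
      rw [← ENNReal.ofReal_add (by norm_num) (by norm_num)]
      congr 1
      ring
    rw [h6] at h5
    have h7 := (ENNReal.add_le_add_iff_right ENNReal.ofReal_ne_top).1 h5
    refine le_trans (ENNReal.ofReal_le_ofReal ?_) h7
    norm_num
  have hpos : 0 < volume E := lt_of_lt_of_le (by norm_num) hvol
  have hper : perimeter (P m) E ≤ ENNReal.ofReal (8 * (1001 / 1000) * (12 / 13)) :=
    perimeter_trunc_le (fun x hx => Q_bound (interior_subset hx)) (by norm_num)
  have hch : cheeger (P m) disk ≤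
      ENNReal.ofReal (8 * (1001 / 1000) * (12 / 13)) / ENNReal.ofReal (29806 / 10000) := by
    have hsub : E ⊆ disk := fun x hx => hx.1
    have h0 : cheeger (P m) disk ≤ perimeter (P m) E / volume E := by
      unfold cheeger
      exact (iInf_le _ E).trans ((iInf_le _ hEm).trans ((iInf_le _ hsub).trans (iInf_le _ hpos)))
    exact h0.trans (ENNReal.div_le_div hper hvol)
  have hpol : volume (polarSet (P m)) ≤ 2 :=
    volume_polar_le (bounded_P m) (fun x h1 h2 => box_subset_P m h1 h2)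
  have h2 : (2 : ℝ≥0∞) ^ (1 / 2 : ℝ) = ENNReal.ofReal (√2) := by
    rw [Real.sqrt_eq_rpow, ← ENNReal.ofReal_rpow_of_pos two_pos]
    norm_num
  have h3 : √2 ≤ 141422 / 100000 := by
    rw [Real.sqrt_le_iff]
    constructor <;> norm_num
  calc J disk (P m) ≤ ENNReal.ofReal (8 * (1001 / 1000) * (12 / 13)) /
        ENNReal.ofReal (29806 / 10000) * (2 : ℝ≥0∞) ^ (1 / 2 : ℝ) := by
        unfold J
        exact mul_le_mul' hch (ENNReal.rpow_le_rpow hpol (by norm_num))
    _ = ENNReal.ofReal (8 * (1001 / 1000) * (12 / 13) / (29806 / 10000) * √2) := by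
        rw [h2, ← ENNReal.ofReal_div_of_pos (by norm_num), ← ENNReal.ofReal_mul (by norm_num)]
    _ < ENNReal.ofReal (3508 / 1000) := by
        rw [ENNReal.ofReal_lt_ofReal_iff (by norm_num)]
        calc 8 * (1001 / 1000) * (12 / 13) / (29806 / 10000) * √2 ≤
            8 * (1001 / 1000) * (12 / 13) / (29806 / 10000) * (141422 / 100000) := by
              gcongr
          _ < 3508 / 1000 := by norm_num

lemma J_regular_gt {n : ℕ} (hn : 22 ≤ n) : ENNReal.ofReal (3508 / 1000) ≤
    J disk (regularPolygon n) := by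
  refine le_trans ?_ (J_regular_ge (by omega : 3 ≤ n))
  have hn' : (22 : ℝ) ≤ n := by exact_mod_cast hn
  have hpi1 := Real.pi_gt_d6
  have hpi2 := Real.pi_lt_d6
  have hcos : 9898 / 10000 ≤ Real.cos (Real.pi / n) := by
    have h1 := Real.one_sub_sq_div_two_le_cos (x := Real.pi / n)
    have h2 : (Real.pi / n) ^ 2 ≤ (3.141593 / 22) ^ 2 := by
      apply pow_le_pow_left₀ (by positivity)
      exact div_le_div₀ (by norm_num) hpi2.le (by norm_num) hn'
    norm_num at h2 ⊢
    linarith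
  have h3 : (2 : ℝ≥0∞) * ENNReal.ofReal (Real.pi * Real.cos (Real.pi / n) ^ 2) ^ (1 / 2 : ℝ) =
      ENNReal.ofReal (2 * √(Real.pi * Real.cos (Real.pi / n) ^ 2)) := by
    have hpos : 0 < Real.pi * Real.cos (Real.pi / n) ^ 2 := by
      have : 0 < Real.cos (Real.pi / n) := by linarith
      positivity
    rw [Real.sqrt_eq_rpow, ENNReal.ofReal_mul two_pos.le, ← ENNReal.ofReal_rpow_of_pos hpos]
    norm_num
  rw [h3]
  apply ENNReal.ofReal_le_ofReal
  have h4 : (1754 / 1000 : ℝ) ≤ √(Real.pi * Real.cos (Real.pi / n) ^ 2) := by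
    apply Real.le_sqrt_of_sq_le
    have h5 : (9898 / 10000 : ℝ) ^ 2 ≤ Real.cos (Real.pi / n) ^ 2 :=
      pow_le_pow_left₀ (by norm_num) hcos 2
    norm_num at hpi1 h5 ⊢
    nlinarith
  linarith

end Pool.Agent.Helper32.Cheeger
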