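import Pool.Agent.Helper32.Cheeger.Lower

set_option autoImplicit false

open MeasureTheory Set Filter Topology
open scoped ENNReal

namespace Pool.Agent.Helper32.Cheeger

/-- the truncated disc -/
def trunc (c : ℝ) : Set (ℝ × ℝ) := {x | x ∈ disk ∧ |x.1| < c ∧ |x.2| < c}

lemma isOpen_trunc (c : ℝ) : IsOpen (trunc c) := by
  have h1 : IsOpen {x : ℝ × ℝ | |x.1| < c} := isOpen_lt (by fun_prop) continuous_const
  have h2 : IsOpen {x : ℝ × ℝ | |x.2| < c} := isOpen_lt (by fun_prop) continuous_const
  exact isOpen_disk.inter (h1.inter h2)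

lemma integrable_dir {g : ℝ × ℝ → ℝ} (hg : ContDiff ℝ 1 g) (hc : HasCompactSupport g)
    (v : ℝ × ℝ) : Integrable (fun x => fderiv ℝ g x v) := by
  have h1 : Continuous (fun x => fderiv ℝ g x v) :=
    (hg.continuous_fderiv one_ne_zero).clm_apply continuous_const
  refine h1.integrable_of_hasCompactSupport ?_
  exact (hc.fderiv (𝕜 := ℝ)).comp_left (g := fun L : (ℝ × ℝ) →L[ℝ] ℝ => L v)
    (by simp)

/-- integral of the second partial derivative over the truncated disc -/
lemma integral_snd_le {g : ℝ × ℝ → ℝ} (hg : ContDiff ℝ 1 g) (hcs : HasCompactSupport g) {b c : ℝ}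
    (hb : ∀ x, |g x| ≤ b) (hc0 : 0 ≤ c) :
    ∫ x in trunc c, fderiv ℝ g x (0, 1) ≤ 4 * b * c := by
  have hb0 : 0 ≤ b := (abs_nonneg _).trans (hb 0)
  have hint := integrable_dir hg hcs (0, 1)
  rw [← integral_indicator (isOpen_trunc c).measurableSet]
  have hint2 : Integrable ((trunc c).indicator fun x => fderiv ℝ g x (0, 1)) :=
    hint.indicator (isOpen_trunc c).measurableSet
  rw [Measure.volume_eq_prod] at hint2 ⊢
  rw [integral_prod _ hint2]
  have hinner : ∀ x : ℝ, ∫ y, (trunc c).indicator (fun z => fderiv ℝ g z (0, 1)) (x, y) ≤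
      (Ioo (-c) c).indicator (fun _ => 2 * b) x := by
    intro x
    by_cases hx : x ∈ Ioo (-c) c
    swap
    · rw [indicator_of_notMem hx]
      apply le_of_eq
      rw [← integral_zero ℝ ℝ (μ := volume)]
      congr 1
      funext y
      apply indicator_of_notMem
      rintro ⟨-, h1, -⟩
      exact hx (abs_lt.1 h1)
    · rw [indicator_of_mem hx]
      by_cases hx1 : x ^ 2 < 1
      swap
      · have : ∫ y, (trunc c).indicator (fun z => fderiv ℝ g z (0, 1)) (x, y) = 0 := by
          rw [← integral_zero ℝ ℝ (μ := volume)]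
          congr 1
          funext y
          apply indicator_of_notMem
          rintro ⟨h1, -, -⟩
          have h1' : x ^ 2 + y ^ 2 < 1 := h1
          nlinarith [sq_nonneg y]
        rw [this]
        linarith
      · set w := min c (√(1 - x ^ 2)) with hw
        have hw0 : 0 ≤ w := le_min hc0 (Real.sqrt_nonneg _)
        have hset : ∀ y, (trunc c).indicator (fun z => fderiv ℝ g z (0, 1)) (x, y) =
            (Ioo (-w) w).indicator (fun y => fderiv ℝ g (x, y) (0, 1)) y := by
          intro y
          have hiff : (x, y) ∈ trunc c ↔ y ∈ Ioo (-w) w := by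
            rw [mem_Ioo, ← abs_lt, hw, lt_min_iff]
            constructor
            · rintro ⟨h1, -, h3⟩
              refine ⟨h3, ?_⟩
              have h1' : x ^ 2 + y ^ 2 < 1 := h1
              apply Real.lt_sqrt_of_sq_lt
              rw [sq_abs]
              linarith
            · rintro ⟨h1, h2⟩
              refine ⟨?_, abs_lt.2 hx, h1⟩
              show x ^ 2 + y ^ 2 < 1
              have h4 := (Real.lt_sqrt (abs_nonneg y)).1 h2
              rw [sq_abs] at h4
              linarith
          by_cases h : (x, y) ∈ trunc c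
          · rw [indicator_of_mem h, indicator_of_mem (hiff.1 h)]
          · rw [indicator_of_notMem h, indicator_of_notMem (fun h' => h (hiff.2 h'))]
        simp_rw [hset]
        rw [integral_indicator measurableSet_Ioo, ← integral_Ioc_eq_integral_Ioo,
          ← intervalIntegral.integral_of_le (by linarith)]
        have hder : ∀ y : ℝ, HasDerivAt (fun y => g (x, y)) (fderiv ℝ g (x, y) (0, 1)) y := by
          intro y
          have h1 : HasFDerivAt g (fderiv ℝ g (x, y)) (x, y) :=
            (hg.differentiable one_ne_zero _).hasFDerivAt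
          have h2 : HasDerivAt (fun y : ℝ => (x, y)) ((0 : ℝ), (1 : ℝ)) y :=
            (hasDerivAt_const y x).prodMk (hasDerivAt_id y)
          exact h1.comp_hasDerivAt y h2
        rw [intervalIntegral.integral_eq_sub_of_hasDerivAt (fun y _ => hder y)]
        · have h1 := abs_le.1 (hb (x, w))
          have h2 := abs_le.1 (hb (x, -w))
          linarith [h1.2, h2.1]
        · apply Continuous.intervalIntegrable
          exact ((hg.continuous_fderiv one_ne_zero).comp (by fun_prop)).clm_apply
            continuous_const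
  calc ∫ x, ∫ y, (trunc c).indicator (fun z => fderiv ℝ g z (0, 1)) (x, y)
      ≤ ∫ x, (Ioo (-c) c).indicator (fun _ => 2 * b) x := by
        apply integral_mono hint2.integral_prod_left _ hinner
        refine IntegrableOn.integrable_indicator ?_ measurableSet_Ioo
        exact integrableOn_const (by simp)
    _ = 4 * b * c := by
        rw [integral_indicator measurableSet_Ioo, setIntegral_const]
        simp only [Measure.real, Real.volume_Ioo, smul_eq_mul]
        rw [ENNReal.toReal_ofReal (by linarith)]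
        ring

lemma trunc_swap (c : ℝ) : Prod.swap ⁻¹' (trunc c) = trunc c := by
  ext ⟨x, y⟩
  simp only [trunc, disk, mem_preimage, Prod.swap_prod_mk, mem_setOf_eq]
  constructor
  · rintro ⟨h1, h2, h3⟩
    exact ⟨by linarith, h3, h2⟩
  · rintro ⟨h1, h2, h3⟩
    exact ⟨by linarith, h3, h2⟩

lemma integral_fst_le {g : ℝ × ℝ → ℝ} (hg : ContDiff ℝ 1 g) (hcs : HasCompactSupport g) {b c : ℝ}
    (hb : ∀ x, |g x| ≤ b) (hc0 : 0 ≤ c) :
    ∫ x in trunc c, fderiv ℝ g x (1, 0) ≤ 4 * b * c := by
  have hswap : ContDiff ℝ 1 (Prod.swap : ℝ × ℝ → ℝ × ℝ) := contDiff_snd.prodMk contDiff_fst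
  have hg' : ContDiff ℝ 1 (fun x => g (Prod.swap x)) := hg.comp hswap
  have hcs' : HasCompactSupport (fun x => g (Prod.swap x)) :=
    hcs.comp_homeomorph (Homeomorph.prodComm ℝ ℝ)
  have h := integral_snd_le hg' hcs' (b := b) (c := c) (fun x => hb _) hc0
  have h1 : ∀ x : ℝ × ℝ, fderiv ℝ (fun x => g (Prod.swap x)) x (0, 1) =
      fderiv ℝ g (Prod.swap x) (1, 0) := by
    intro x
    have h2 : HasFDerivAt g (fderiv ℝ g (Prod.swap x)) (Prod.swap x) :=
      (hg.differentiable one_ne_zero _).hasFDerivAt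
    have h3 : HasFDerivAt (Prod.swap : ℝ × ℝ → ℝ × ℝ)
        ((ContinuousLinearMap.snd ℝ ℝ ℝ).prod (ContinuousLinearMap.fst ℝ ℝ ℝ)) x :=
      hasFDerivAt_snd.prodMk hasFDerivAt_fst
    have h4 : HasFDerivAt (fun x => g (Prod.swap x)) ((fderiv ℝ g (Prod.swap x)).comp
        ((ContinuousLinearMap.snd ℝ ℝ ℝ).prod (ContinuousLinearMap.fst ℝ ℝ ℝ))) x := h2.comp x h3
    rw [h4.fderiv]
    simp
  simp_rw [h1] at h
  have h4 : MeasurePreserving (Prod.swap : ℝ × ℝ → ℝ × ℝ) volume volume := by
    rw [Measure.volume_eq_prod]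
    exact Measure.measurePreserving_swap
  have h5 := h4.setIntegral_preimage_emb (MeasurableEquiv.prodComm.measurableEmbedding)
    (fun x => fderiv ℝ g x (1, 0)) (trunc c)
  rw [trunc_swap] at h5
  rw [← h5]
  exact h

lemma perimeter_trunc_le {K : Set (ℝ × ℝ)} {b c : ℝ} (hK : ∀ x ∈ K, |x.1| ≤ b ∧ |x.2| ≤ b)
    (hc0 : 0 ≤ c) : perimeter K (trunc c) ≤ ENNReal.ofReal (8 * b * c) := by
  unfold perimeter
  refine iSup_le fun φ => iSup_le fun h1 => iSup_le fun h2 => iSup_le fun h3 =>
    ENNReal.ofReal_le_ofReal ?_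
  have hf : ContDiff ℝ 1 (fun x => (φ x).1) := contDiff_fst.comp h1
  have hs : ContDiff ℝ 1 (fun x => (φ x).2) := contDiff_snd.comp h1
  have hfc : HasCompactSupport (fun x => (φ x).1) := h2.comp_left (g := Prod.fst) rfl
  have hsc : HasCompactSupport (fun x => (φ x).2) := h2.comp_left (g := Prod.snd) rfl
  have hd : ∀ x, divergence φ x = fderiv ℝ (fun x => (φ x).1) x (1, 0) +
      fderiv ℝ (fun x => (φ x).2) x (0, 1) := by
    intro x
    have h4 : HasFDerivAt φ (fderiv ℝ φ x) x := (h1.differentiable one_ne_zero _).hasFDerivAt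
    unfold divergence
    rw [(h4.fst).fderiv, (h4.snd).fderiv]
    simp
  simp_rw [hd]
  rw [integral_add (integrable_dir hf hfc _).integrableOn (integrable_dir hs hsc _).integrableOn]
  have h5 := integral_fst_le hf hfc (b := b) (fun x => (hK _ (h3 x)).1) hc0
  have h6 := integral_snd_le hs hsc (b := b) (fun x => (hK _ (h3 x)).2) hc0
  linarith

/-! ### area of the truncated disc -/

lemma volume_cap {c : ℝ} (hc1 : c < 1) :
    volume {x : ℝ × ℝ | x ∈ disk ∧ c ≤ x.2} ≤
      ENNReal.ofReal (2 / 3 * √(2 * (1 - c)) ^ 3) := by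
  set h := √(2 * (1 - c)) with hh
  have hh0 : 0 ≤ h := Real.sqrt_nonneg _
  have hh2 : h ^ 2 = 2 * (1 - c) := Real.sq_sqrt (by linarith)
  set S : Set (ℝ × ℝ) := {x | |x.1| ≤ h ∧ c ≤ x.2 ∧ x.2 ≤ 1 - x.1 ^ 2 / 2} with hS
  have hsub : {x : ℝ × ℝ | x ∈ disk ∧ c ≤ x.2} ⊆ S := by
    rintro ⟨x, y⟩ ⟨h1, h2⟩
    have h1' : x ^ 2 + y ^ 2 < 1 := h1
    have h2' : c ≤ y := h2
    have h3 : y ≤ 1 - x ^ 2 / 2 := by nlinarith [sq_nonneg (y - 1)]
    refine ⟨?_, h2, h3⟩
    show |x| ≤ h
    apply Real.abs_le_sqrt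
    linarith
  have hSm : MeasurableSet S := by
    have m1 : IsClosed {x : ℝ × ℝ | |x.1| ≤ h} := isClosed_le (by fun_prop) continuous_const
    have m2 : IsClosed {x : ℝ × ℝ | c ≤ x.2} := isClosed_le continuous_const (by fun_prop)
    have m3 : IsClosed {x : ℝ × ℝ | x.2 ≤ 1 - x.1 ^ 2 / 2} :=
      isClosed_le (by fun_prop) (by fun_prop)
    exact (m1.inter (m2.inter m3)).measurableSet
  refine (measure_mono hsub).trans (le_of_eq ?_)
  rw [Measure.volume_eq_prod, Measure.prod_apply hSm]
  have hsec : ∀ x : ℝ, volume (Prod.mk x ⁻¹' S) =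
      (Icc (-h) h).indicator (fun x => ENNReal.ofReal (1 - x ^ 2 / 2 - c)) x := by
    intro x
    by_cases hx : x ∈ Icc (-h) h
    · rw [indicator_of_mem hx]
      have : Prod.mk x ⁻¹' S = Icc c (1 - x ^ 2 / 2) := by
        ext y
        exact ⟨fun hy => ⟨hy.2.1, hy.2.2⟩, fun hy => ⟨abs_le.2 hx, hy.1, hy.2⟩⟩
      rw [this, Real.volume_Icc]
    · rw [indicator_of_notMem hx]
      have : Prod.mk x ⁻¹' S = ∅ := by
        ext y
        simp only [mem_empty_iff_false, iff_false]
        exact fun hy => hx (abs_le.1 hy.1)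
      rw [this, measure_empty]
  simp_rw [hsec]
  rw [lintegral_indicator measurableSet_Icc,
    ← ofReal_integral_eq_lintegral_ofReal]
  · congr 1
    rw [integral_Icc_eq_integral_Ioc, ← intervalIntegral.integral_of_le (by linarith)]
    have hder : ∀ x : ℝ, HasDerivAt (fun x : ℝ => (1 - c) * x - x ^ 3 / 6)
        (1 - x ^ 2 / 2 - c) x := by
      intro x
      have h1 : HasDerivAt (fun x : ℝ => (1 - c) * x - x ^ 3 / 6)
          ((1 - c) * 1 - ((3 : ℕ) : ℝ) * x ^ (3 - 1) / 6) x :=
        ((hasDerivAt_id' x).const_mul (1 - c)).sub ((hasDerivAt_pow 3 x).div_const 6)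
      refine h1.congr_deriv ?_
      norm_num
      ring
    rw [intervalIntegral.integral_eq_sub_of_hasDerivAt (fun x _ => hder x)]
    · have h3 : h ^ 3 = h * (2 * (1 - c)) := by rw [← hh2]; ring
      have h4 : (-h) ^ 3 = -(h * (2 * (1 - c))) := by rw [← h3]; ring
      rw [h3, h4]
      ring
    · apply Continuous.intervalIntegrable
      fun_prop
  · apply Continuous.integrableOn_Icc
    fun_prop
  · rw [EventuallyLE, ae_restrict_iff' measurableSet_Icc]
    refine Eventually.of_forall fun x hx => ?_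
    show 0 ≤ 1 - x ^ 2 / 2 - c
    have : x ^ 2 ≤ h ^ 2 := sq_le_sq' hx.1 hx.2
    linarith

lemma volume_trunc {c : ℝ} (hc1 : c < 1) :
    ENNReal.ofReal Real.pi ≤ volume (trunc c) +
      4 * ENNReal.ofReal (2 / 3 * √(2 * (1 - c)) ^ 3) := by
  set U : Set (ℝ × ℝ) := {x | x ∈ disk ∧ c ≤ x.2} with hU
  have hUm : MeasurableSet U := by
    have m2 : IsClosed {x : ℝ × ℝ | c ≤ x.2} := isClosed_le continuous_const (by fun_prop)
    exact measurableSet_disk.inter m2.measurableSet
  have hneg : MeasurePreserving (fun x : ℝ × ℝ => -x) volume volume := by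
    exact Measure.measurePreserving_neg _
  have hswap : MeasurePreserving (Prod.swap : ℝ × ℝ → ℝ × ℝ) volume volume := by
    rw [Measure.volume_eq_prod]
    exact Measure.measurePreserving_swap
  have h1 : volume ((fun x : ℝ × ℝ => -x) ⁻¹' U) = volume U :=
    hneg.measure_preimage hUm.nullMeasurableSet
  have h2 : volume (Prod.swap ⁻¹' U) = volume U := hswap.measure_preimage hUm.nullMeasurableSet
  have h3 : volume (Prod.swap ⁻¹' ((fun x : ℝ × ℝ => -x) ⁻¹' U)) = volume U := by
    rw [hswap.measure_preimage (hneg.measurable hUm).nullMeasurableSet, h1]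
  have hcov : disk ⊆ trunc c ∪ (U ∪ ((fun x : ℝ × ℝ => -x) ⁻¹' U ∪ (Prod.swap ⁻¹' U ∪
      Prod.swap ⁻¹' ((fun x : ℝ × ℝ => -x) ⁻¹' U)))) := by
    rintro ⟨x, y⟩ hxy
    have hxy' : x ^ 2 + y ^ 2 < 1 := hxy
    by_cases h : (x, y) ∈ trunc c
    · exact Or.inl h
    right
    have h4 : ¬ (|x| < c ∧ |y| < c) := fun h5 => h ⟨hxy, h5⟩
    rw [not_and_or, not_lt, not_lt] at h4
    rcases h4 with h4 | h4
    · rcases le_abs.1 h4 with h5 | h5
      · right; right; left
        refine ⟨?_, h5⟩
        show y ^ 2 + x ^ 2 < 1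
        linarith
      · right; right; right
        refine ⟨?_, h5⟩
        show (-y) ^ 2 + (-x) ^ 2 < 1
        nlinarith
    · rcases le_abs.1 h4 with h5 | h5
      · left
        exact ⟨hxy, h5⟩
      · right; left
        refine ⟨?_, h5⟩
        show (-x) ^ 2 + (-y) ^ 2 < 1
        nlinarith
  have hcap := volume_cap hc1
  calc ENNReal.ofReal Real.pi = volume disk := volume_disk.symm
    _ ≤ volume (trunc c) + (volume U + (volume U + (volume U + volume U))) := by
        refine (measure_mono hcov).trans ((measure_union_le _ _).trans ?_)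
        refine add_le_add le_rfl ((measure_union_le _ _).trans ?_)
        refine add_le_add le_rfl ((measure_union_le _ _).trans ?_)
        refine add_le_add h1.le ((measure_union_le _ _).trans ?_)
        exact add_le_add h2.le h3.le
    _ = volume (trunc c) + 4 * volume U := by ring
    _ ≤ _ := by gcongr

/-- the polar set of a set between the unit square and a bounded set -/
lemma volume_polar_le {K : Set (ℝ × ℝ)} (hb : Bornology.IsBounded K)
    (hK : ∀ x : ℝ × ℝ, |x.1| < 1 → |x.2| < 1 → x ∈ K) : volume (polarSet K) ≤ 2 := by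
  obtain ⟨R, hR⟩ := hb.exists_norm_le
  have hbdd : ∀ x : ℝ × ℝ, BddAbove (dot x '' K) := by
    intro x
    refine ⟨|x.1| * R + |x.2| * R, ?_⟩
    rintro _ ⟨y, hy, rfl⟩
    have h1 : |y.1| ≤ R := (norm_fst_le y).trans (hR y hy)
    have h2 : |y.2| ≤ R := (norm_snd_le y).trans (hR y hy)
    unfold dot
    have h3 : x.1 * y.1 ≤ |x.1| * R := by
      calc x.1 * y.1 ≤ |x.1 * y.1| := le_abs_self _
        _ = |x.1| * |y.1| := abs_mul _ _
        _ ≤ _ := mul_le_mul_of_nonneg_left h1 (abs_nonneg _)
    have h4 : x.2 * y.2 ≤ |x.2| * R := by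
      calc x.2 * y.2 ≤ |x.2 * y.2| := le_abs_self _
        _ = |x.2| * |y.2| := abs_mul _ _
        _ ≤ _ := mul_le_mul_of_nonneg_left h2 (abs_nonneg _)
    linarith
  have hle : ∀ x : ℝ × ℝ, |x.1| + |x.2| ≤ polarNorm K x := by
    intro x
    have hlim : Tendsto (fun t : ℝ => t * (|x.1| + |x.2|)) (𝓝[<] 1)
        (𝓝 (1 * (|x.1| + |x.2|))) := by
      apply Tendsto.mono_left _ nhdsWithin_le_nhds
      exact (continuous_id.mul continuous_const).tendsto 1
    rw [one_mul] at hlim
    refine le_of_tendsto hlim ?_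
    filter_upwards [self_mem_nhdsWithin, mem_nhdsWithin_of_mem_nhds (lt_mem_nhds one_pos)]
      with t ht1 ht0
    have hs : ∀ a : ℝ, |((SignType.sign a : SignType) : ℝ)| ≤ (1 : ℝ) := by
      intro a
      rcases lt_trichotomy a 0 with h | h | h
      · simp [sign_neg h]
      · simp [h]
      · simp [sign_pos h]
    have h1 : ∀ a : ℝ, |t * ((SignType.sign a : SignType) : ℝ)| < 1 := by
      intro a
      rw [abs_mul, abs_of_pos ht0]
      have h2 := hs a
      have ht1' : t < 1 := ht1
      nlinarith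
    have hmem : (t * SignType.sign x.1, t * SignType.sign x.2) ∈ K := hK _ (h1 _) (h1 _)
    refine le_csSup_of_le (hbdd x) (mem_image_of_mem _ hmem) (le_of_eq ?_)
    unfold dot
    have h3 : ∀ a : ℝ, a * (t * SignType.sign a) = t * |a| := by
      intro a
      rw [← self_mul_sign a]
      ring
    rw [h3, h3]
    ring
  have hsub : polarSet K ⊆ {x | |x.1| + |x.2| < 1} := fun x hx => (hle x).trans_lt hx
  refine (measure_mono hsub).trans (le_of_eq ?_)
  have hSm : MeasurableSet {x : ℝ × ℝ | |x.1| + |x.2| < 1} :=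
    (isOpen_lt (by fun_prop) continuous_const).measurableSet
  rw [Measure.volume_eq_prod, Measure.prod_apply hSm]
  have hsec : ∀ x : ℝ, volume (Prod.mk x ⁻¹' {x : ℝ × ℝ | |x.1| + |x.2| < 1}) =
      (Icc (-1) 1).indicator (fun x => ENNReal.ofReal (2 * (1 - |x|))) x := by
    intro x
    by_cases hx : x ∈ Icc (-1 : ℝ) 1
    · rw [indicator_of_mem hx]
      have : Prod.mk x ⁻¹' {x : ℝ × ℝ | |x.1| + |x.2| < 1} = Ioo (-(1 - |x|)) (1 - |x|) := by
        ext y
        rw [mem_Ioo, ← abs_lt]
        show |x| + |y| < 1 ↔ _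
        constructor <;> intro h <;> linarith
      rw [this, Real.volume_Ioo]
      congr 1
      ring
    · rw [indicator_of_notMem hx]
      have : Prod.mk x ⁻¹' {x : ℝ × ℝ | |x.1| + |x.2| < 1} = ∅ := by
        ext y
        simp only [mem_empty_iff_false, iff_false]
        intro h
        have h' : |x| + |y| < 1 := h
        apply hx
        rw [mem_Icc, ← abs_le]
        linarith [abs_nonneg y]
      rw [this, measure_empty]
  simp_rw [hsec]
  rw [lintegral_indicator measurableSet_Icc,
    ← ofReal_integral_eq_lintegral_ofReal]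
  · rw [integral_Icc_eq_integral_Ioc, ← intervalIntegral.integral_of_le (by norm_num)]
    have h1 : ∫ x in (-1 : ℝ)..1, 2 * (1 - |x|) = 2 := by
      rw [← intervalIntegral.integral_add_adjacent_intervals (b := 0)]
      · have e1 : ∫ x in (-1 : ℝ)..0, 2 * (1 - |x|) = ∫ x in (-1 : ℝ)..0, 2 * (1 + x) := by
          apply intervalIntegral.integral_congr
          intro x hx
          rw [uIcc_of_le (by norm_num)] at hx
          show 2 * (1 - |x|) = 2 * (1 + x)
          rw [abs_of_nonpos hx.2]
          ring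
        have e2 : ∫ x in (0 : ℝ)..1, 2 * (1 - |x|) = ∫ x in (0 : ℝ)..1, 2 * (1 - x) := by
          apply intervalIntegral.integral_congr
          intro x hx
          rw [uIcc_of_le (by norm_num)] at hx
          show 2 * (1 - |x|) = 2 * (1 - x)
          rw [abs_of_nonneg hx.1]
        rw [e1, e2]
        have d1 : ∀ x : ℝ, HasDerivAt (fun x : ℝ => 2 * x + x ^ 2) (2 * (1 + x)) x := by
          intro x
          have h1 : HasDerivAt (fun x : ℝ => 2 * x + x ^ 2)
              (2 * 1 + ((2 : ℕ) : ℝ) * x ^ (2 - 1)) x :=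
            ((hasDerivAt_id' x).const_mul 2).add (hasDerivAt_pow 2 x)
          refine h1.congr_deriv ?_
          norm_num
          ring
        have d2 : ∀ x : ℝ, HasDerivAt (fun x : ℝ => 2 * x - x ^ 2) (2 * (1 - x)) x := by
          intro x
          have h1 : HasDerivAt (fun x : ℝ => 2 * x - x ^ 2)
              (2 * 1 - ((2 : ℕ) : ℝ) * x ^ (2 - 1)) x :=
            ((hasDerivAt_id' x).const_mul 2).sub (hasDerivAt_pow 2 x)
          refine h1.congr_deriv ?_
          norm_num
          ring
        rw [intervalIntegral.integral_eq_sub_of_hasDerivAt (fun x _ => d1 x)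
          (by apply Continuous.intervalIntegrable; fun_prop),
          intervalIntegral.integral_eq_sub_of_hasDerivAt (fun x _ => d2 x)
          (by apply Continuous.intervalIntegrable; fun_prop)]
        norm_num
      · apply Continuous.intervalIntegrable; fun_prop
      · apply Continuous.intervalIntegrable; fun_prop
    rw [h1]
    norm_num
  · apply Continuous.integrableOn_Icc
    fun_prop
  · rw [EventuallyLE, ae_restrict_iff' measurableSet_Icc]
    refine Eventually.of_forall fun x hx => ?_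
    show 0 ≤ 2 * (1 - |x|)
    have := abs_le.2 hx
    linarith

end Pool.Agent.Helper32.Cheeger
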